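import Pool.Agent.Helper40_ZOL.Stmts

/-!
# ZOL, row GR
-/

namespace Pool.Agent.ZOL.H97

open Pool.Agent.ZOL

/-- restriction of a homomorphism to steps of the filtration -/
noncomputable def rs (d e : ℕ) (i : ZK →+ ZK) (h : ∀ x ∈ F d, i x ∈ F e) : F d →+ F e :=
  (i.comp (F d).subtype).codRestrict (F e) (fun x => h x x.2)

theorem rs_coe (d e : ℕ) (i : ZK →+ ZK) (h : ∀ x ∈ F d, i x ∈ F e) (x : F d) :
    ((rs d e i h x : F e) : ZK) = i x := rfl

theorem rs_le (d e : ℕ) (i : ZK →+ ZK) (h : ∀ x ∈ F d, i x ∈ F e)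
    (h' : ∀ x ∈ F (d + 1), i x ∈ F (e + 1)) :
    (F (d + 1)).addSubgroupOf (F d) ≤ ((F (e + 1)).addSubgroupOf (F e)).comap (rs d e i h) := by
  intro x hx
  rw [AddSubgroup.mem_comap, AddSubgroup.mem_addSubgroupOf, rs_coe]
  exact h' _ (AddSubgroup.mem_addSubgroupOf.1 hx)

/-- GR -/
theorem gr : GrStmt := by
  intro d e i r hi hi' hr hr' hri
  refine ⟨QuotientAddGroup.map _ _ (rs d e i hi) (rs_le d e i hi hi'),
    QuotientAddGroup.map _ _ (rs e d r hr) (rs_le e d r hr hr'), ?_⟩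
  ext x
  change (((rs e d r hr (rs d e i hi x) : F d)) : Gr d) = ((x : F d) : Gr d)
  rw [eq_comm, QuotientAddGroup.eq, AddSubgroup.mem_addSubgroupOf]
  have h1 := hri x x.2
  have h2 : ((-x + rs e d r hr (rs d e i hi x) : F d) : ZK) = r (i x) - x := by
    rw [AddSubgroup.coe_add, AddSubgroup.coe_neg, rs_coe, rs_coe]
    abel
  rw [h2]
  exact h1

end Pool.Agent.ZOL.H97
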