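import Pool.Agent.Helper40_ZOL.Stmts

/-!
# ZOL, row VAL
-/

namespace Pool.Agent.ZOL.H97

open Pool.Agent.ZOL

set_option maxRecDepth 100000 in
/-- VAL -/
theorem val : ValStmt := by
  constructor
  · decide
  · decide

end Pool.Agent.ZOL.H97
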